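import Pool.Agent.H5.CcsCore

set_option autoImplicit false

namespace Pool.Agent.Results.MP_c89e4d_an.CcsSuper

open Metric Set RCLike Pool.Agent.H5

universe u

variable {𝕜 : Type} [RCLike 𝕜] {X : Type u} [NormedAddCommGroup X] [NormedSpace 𝕜 X]

/-- the slice of the unit ball given by `f` and `α` -/
def slice (f : StrongDual 𝕜 X) (α : ℝ) : Set X := {y | ‖y‖ ≤ 1 ∧ 1 - α < re (f y)}

/-- `C` is a convex combination of slices of the unit ball -/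
def IsCcs (𝕜 : Type) [RCLike 𝕜] {X : Type u} [NormedAddCommGroup X] [NormedSpace 𝕜 X]
    (C : Set X) : Prop :=
  ∃ (n : ℕ) (f : Fin n → StrongDual 𝕜 X) (α l : Fin n → ℝ),
    (∀ i, ‖f i‖ = 1 ∧ 0 < α i ∧ 0 < l i) ∧ ∑ i, l i = 1 ∧
      C = {z | ∃ y : Fin n → X, (∀ i, y i ∈ slice (f i) (α i)) ∧ z = ∑ i, (l i : 𝕜) • y i}

/-- `W` is a relatively weakly open subset of the unit ball -/
def RelWeakOpen (𝕜 : Type) [RCLike 𝕜] {X : Type u} [NormedAddCommGroup X] [NormedSpace 𝕜 X]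
    (W : Set X) : Prop :=
  ∃ U : Set (WeakSpace 𝕜 X), IsOpen U ∧ W = closedBall (0 : X) 1 ∩ toWeakSpace 𝕜 X ⁻¹' U

/-- the supremum of the distances from `x` to the points of `A` is two -/
def Far (x : X) (A : Set X) : Prop := sSup ((fun y => ‖x - y‖) '' A) = 2

/-- Every ccs Delta-point is a super Delta-point. -/
theorem result (𝕜 : Type) [RCLike 𝕜] (X : Type u) [NormedAddCommGroup X] [NormedSpace 𝕜 X]
    [CompleteSpace X] (x : X) (hx : ‖x‖ = 1) (h : ∀ C : Set X, IsCcs 𝕜 C → x ∈ C → Far x C) :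
    ∀ W : Set X, RelWeakOpen 𝕜 W → x ∈ W → Far x W := by
  have hA : CcsCore.Avg 𝕜 x := by
    intro n hn f δ η hδ hη
    have hn' : (0 : ℝ) < n := by exact_mod_cast hn
    have hs : ∑ _i : Fin n, (n : ℝ)⁻¹ = 1 := by simp [hn'.ne']
    obtain ⟨f₀, h0, -⟩ := exists_dual_vector 𝕜 x (by rw [hx]; exact one_ne_zero)
    have key : ∀ i, ∃ (g : StrongDual 𝕜 X) (α : ℝ), ‖g‖ = 1 ∧ 0 < α ∧ x ∈ slice g α ∧
        ∀ y ∈ slice g α, re (f i x) - δ < re (f i y) := fun i => by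
      have hle : ∀ g : StrongDual 𝕜 X, |re (g x)| ≤ ‖g‖ := fun g =>
        (abs_re_le_norm _).trans (g.unit_le_opNorm x hx.le)
      rcases eq_or_ne (f i) 0 with h1 | h1
      · exact ⟨f₀, 3, h0, three_pos, ⟨hx.le, by linarith [(abs_le.1 (hle f₀)).1]⟩,
          fun y _ => by simpa [h1]⟩
      have hp := norm_pos_iff.2 h1
      have e : ∀ y, re ((((‖f i‖⁻¹ : ℝ) : 𝕜) • f i) y) = ‖f i‖⁻¹ * re (f i y) := fun y => by
        rw [smul_apply, smul_eq_mul, re_ofReal_mul]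
      refine ⟨((‖f i‖⁻¹ : ℝ) : 𝕜) • f i, 1 - ‖f i‖⁻¹ * (re (f i x) - δ), ?_, ?_, ⟨hx.le, ?_⟩,
        fun y hy => ?_⟩
      · rw [norm_smul, norm_ofReal, abs_of_pos (inv_pos.2 hp), inv_mul_cancel₀ hp.ne']
      · rw [sub_pos, inv_mul_lt_iff₀ hp]
        linarith [le_abs_self (re (f i x)), hle (f i)]
      · rw [e, sub_sub_cancel]
        exact mul_lt_mul_of_pos_left (by linarith) (inv_pos.2 hp)
      · have h2 := hy.2
        rw [e, sub_sub_cancel] at h2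
        exact lt_of_mul_lt_mul_left h2 (inv_pos.2 hp).le
    choose g α h1 h2 h3 h4 using key
    have h5 : x ∈ {z | ∃ y : Fin n → X, (∀ i, y i ∈ slice (g i) (α i)) ∧
        z = ∑ i, (((n : ℝ)⁻¹ : ℝ) : 𝕜) • y i} :=
      ⟨fun _ => x, h3, by rw [← Finset.sum_smul, ← ofReal_sum, hs, ofReal_one, one_smul]⟩
    have h6 := h _ ⟨n, g, α, fun _ => (n : ℝ)⁻¹, fun i => ⟨h1 i, h2 i, inv_pos.2 hn'⟩, hs, rfl⟩ h5
    obtain ⟨_, ⟨_, ⟨y, hy, rfl⟩, rfl⟩, h7⟩ := exists_lt_of_lt_csSup ⟨_, mem_image_of_mem _ h5⟩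
      ((sub_lt_self 2 hη).trans_eq h6.symm)
    exact ⟨y, fun i => ⟨(hy i).1, h4 i _ (hy i)⟩, h7⟩
  rintro _ ⟨U, hU, rfl⟩ hxW
  obtain ⟨n, R, ε, hε, hR⟩ := CcsCore.basis hU hxW.2
  refine csSup_eq_of_forall_le_of_forall_lt_exists_gt ⟨_, mem_image_of_mem _ hxW⟩ ?_
    fun w hw => ?_
  · rintro _ ⟨y, hy, rfl⟩
    linarith [norm_sub_le x y, mem_closedBall_zero_iff.1 hy.1]
  · obtain ⟨y, h1, h2, h3⟩ := CcsCore.core R hx hA hε (sub_pos.2 hw)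
    exact ⟨_, ⟨y, ⟨mem_closedBall_zero_iff.2 h1, hR y h2⟩, rfl⟩, by linarith⟩

end Pool.Agent.Results.MP_c89e4d_an.CcsSuper
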